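import Pool.Agent.Helper88.AC.AF
import Pool.Agent.Helper88.AC.F2p
import Pool.Agent.Helper25.CG.CG

/-! # Abundant chains: the conclusion -/

set_option autoImplicit false

open Finset Filter Topology

open scoped Classical

namespace Pool.Agent.Helper88.AC

open Pool.Agent.Helper88.CG

/-- ABUNDANT CHAINS -/
def StmtAC : Prop := ∃ c C : ℝ, 0 < c ∧ ∀ k : ℕ, 1 ≤ k → ∃ X : ℝ, ∀ x : ℝ, X ≤ x → ∀ L : ℝ,
  Real.log (Real.log (Real.log x)) ≤ L → L ≤ c / (k : ℝ) ^ 2 * Real.log (Real.log x) →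
  x * Real.exp (-Real.exp (C * (k : ℝ) ^ 2 * L))
    ≤ ({n : ℕ | (Nat.nth Nat.Prime (n + k) : ℝ) ≤ x ∧ ∀ i < k, L * Real.log x
        ≤ (Nat.nth Nat.Prime (n + i + 1) : ℝ) - Nat.nth Nat.Prime (n + i) - 1}.ncard : ℝ)

/-- counting the chains -/
theorem count (N : Finset ℕ) (y k U x : ℕ) (hx : ∀ n ∈ N, n ≤ x)
    (h : ∀ n ∈ N, ∃ s : ℕ, n < Nat.nth Nat.Prime s ∧ Nat.nth Nat.Prime (s + k) ≤ n + y ∧
      ∀ i < k, Nat.nth Nat.Prime (s + i) + U < Nat.nth Nat.Prime (s + i + 1)) :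
    ∃ S : Finset ℕ, N.card ≤ y * S.card ∧ ∀ s ∈ S, Nat.nth Nat.Prime (s + k) ≤ x + y ∧
      ∀ i < k, Nat.nth Nat.Prime (s + i) + U < Nat.nth Nat.Prime (s + i + 1) := by
  choose! f h1 h2 h3 using h
  refine ⟨N.image f, ?_, ?_⟩
  · refine card_le_mul_card_image N y ?_
    intro s hs
    have hmono : StrictMono (Nat.nth Nat.Prime) := Nat.nth_strictMono Nat.infinite_setOf_prime
    have h4 : N.filter (fun n => f n = s) ⊆
        Ico (Nat.nth Nat.Prime s - y) (Nat.nth Nat.Prime s) := by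
      intro n hn
      rw [mem_filter] at hn
      obtain ⟨hn1, hn2⟩ := hn
      have h5 := h1 n hn1
      have h6 := h2 n hn1
      rw [hn2] at h5 h6
      have h7 : Nat.nth Nat.Prime s ≤ Nat.nth Nat.Prime (s + k) := hmono.monotone (by omega)
      rw [mem_Ico]
      omega
    refine (card_le_card h4).trans ?_
    rw [Nat.card_Ico]
    omega
  · intro s hs
    obtain ⟨n, hn, rfl⟩ := mem_image.1 hs
    exact ⟨(h2 n hn).trans (Nat.add_le_add_right (hx n hn) y), h3 n hn⟩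

theorem ac (h : StmtAF) : StmtAC := by
  obtain ⟨c, C, hc, hC, h⟩ := h
  refine ⟨c / 4, 4 * C + 4, by positivity, fun k hk => ?_⟩
  obtain ⟨x0, hx0⟩ := h k hk
  have hk0 : (1 : ℝ) ≤ k := by exact_mod_cast hk
  have hk2 : (1 : ℝ) ≤ (k : ℝ) ^ 2 := one_le_pow₀ hk0
  have ev1 : ∀ᶠ x : ℝ in atTop, ‖Real.log x ^ 2‖ ≤ 1 / 2 * ‖id x‖ :=
    (Real.isLittleO_pow_log_id_atTop (n := 2)).bound (by norm_num)
  have ev2 : ∀ᶠ x : ℝ in atTop, 4 ≤ Real.log x := Real.tendsto_log_atTop.eventually_ge_atTop 4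
  have ev3 : ∀ᶠ x : ℝ in atTop, 4 ≤ Real.log (Real.log x) :=
    (Real.tendsto_log_atTop.comp Real.tendsto_log_atTop).eventually_ge_atTop 4
  have ev4 : ∀ᶠ x : ℝ in atTop, 4 ≤ Real.log (Real.log (Real.log x)) :=
    (Real.tendsto_log_atTop.comp
      (Real.tendsto_log_atTop.comp Real.tendsto_log_atTop)).eventually_ge_atTop 4
  obtain ⟨X, hX⟩ := eventually_atTop.mp (ev1.and (ev2.and (ev3.and ev4)))
  refine ⟨max X (max 16 (2 * x0 + 2)), fun x hx L hL1 hL2 => ?_⟩
  obtain ⟨e1, e2, e3, e4⟩ := hX x (le_trans (le_max_left _ _) hx)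
  have hx16 : 16 ≤ x := le_trans (le_trans (le_max_left _ _) (le_max_right _ _)) hx
  have hx0' : 2 * (x0 : ℝ) + 2 ≤ x := le_trans (le_trans (le_max_right _ _) (le_max_right _ _)) hx
  rw [id, Real.norm_eq_abs, Real.norm_eq_abs, abs_of_nonneg (by positivity : 0 ≤ Real.log x ^ 2),
    abs_of_nonneg (by linarith only [hx16] : 0 ≤ x)] at e1
  set y : ℕ := ⌊x / 2⌋₊ with hy
  have y1 : (y : ℝ) ≤ x / 2 := Nat.floor_le (by linarith only [hx16])
  have y2 : x / 2 < y + 1 := Nat.lt_floor_add_one _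
  have y3 : x / 4 ≤ y := by linarith only [hx16, y2]
  have y4 : x0 ≤ y := by
    have : (x0 : ℝ) ≤ y := by linarith only [hx0', y2]
    exact_mod_cast this
  have ly1 : Real.log (x / 4) ≤ Real.log y := Real.log_le_log (by linarith only [hx16]) y3
  have ly2 : Real.log y ≤ Real.log x := Real.log_le_log (by linarith only [hx16, y2]) (by linarith only [hx16, y1])
  have ly3 : Real.log x / 2 ≤ Real.log y := (Pool.Agent.Helper25.CG.quarter_log hx16).trans ly1
  have ly4 : Real.log (Real.log x) / 2 ≤ Real.log (Real.log y) :=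
    (Pool.Agent.Helper25.CG.half_log e2).trans (Real.log_le_log (by linarith only [e2]) ly3)
  have ly5 : Real.log (Real.log y) ≤ Real.log (Real.log x) :=
    Real.log_le_log (by linarith only [e2, ly3]) ly2
  have ly6 : Real.log (Real.log (Real.log y)) ≤ Real.log (Real.log (Real.log x)) :=
    Real.log_le_log (by linarith only [e3, ly4]) ly5
  have hL4 : 4 ≤ L := e4.trans hL1
  obtain ⟨M, U, l, a1, a2, a3⟩ := hx0 y y4 (2 * L) (by linarith only [hL1, e4, ly6]) (by
    have h1 : c / (k : ℝ) ^ 2 * (Real.log (Real.log x) / 2) ≤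
        c / (k : ℝ) ^ 2 * Real.log (Real.log y) := mul_le_mul_of_nonneg_left ly4 (by positivity)
    have h2 : c / 4 / (k : ℝ) ^ 2 * Real.log (Real.log x) =
        c / (k : ℝ) ^ 2 * (Real.log (Real.log x) / 2) / 2 := by ring
    linarith only [hL2, h1, h2])
  obtain ⟨W, hW⟩ : ∃ W : ℕ, W = M * (U + l) := ⟨_, rfl⟩
  obtain ⟨Nn, hNn⟩ : ∃ Nn : Finset ℕ, Nn = (Ioc (y / 32) y).filter (fun n =>
      (∀ h ∈ Icc 1 (M * (U + l)), (∀ a < M, h ∉ blk U l a) → ¬ (n + h).Prime) ∧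
      (k : ℝ) + 2 < ∑ a ∈ range M, ((nb n U l a : ℝ) -
        ((k : ℝ) + 2) * ((nb n U l a : ℝ) * ((nb n U l a : ℝ) - 1) / 2))) := ⟨_, rfl⟩
  rw [← hNn] at a3
  obtain ⟨S, hS1, hS2⟩ := count Nn W k U y
    (fun n hn => by
      rw [hNn, mem_filter, mem_Ioc] at hn
      exact hn.1.2)
    (fun n hn => by
      rw [hNn, mem_filter] at hn
      rw [hW]
      exact f2' k n M U l hk hn.2.1 hn.2.2)
  have hfin : {n : ℕ | (Nat.nth Nat.Prime (n + k) : ℝ) ≤ x ∧ ∀ i < k, L * Real.log x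
        ≤ (Nat.nth Nat.Prime (n + i + 1) : ℝ) - Nat.nth Nat.Prime (n + i) - 1}.Finite := by
    refine (Set.finite_le_nat ⌊x⌋₊).subset ?_
    rintro n ⟨hn, -⟩
    have h1 : n ≤ Nat.nth Nat.Prime (n + k) :=
      (Nat.le_add_right n k).trans
        ((Nat.nth_strictMono Nat.infinite_setOf_prime).id_le (n + k))
    exact h1.trans (Nat.le_floor hn)
  have hWx : (W : ℝ) ≤ Real.log x ^ 2 := by
    rw [hW]
    refine a2.trans (pow_le_pow_left₀ ?_ ly2 2)
    linarith only [e2, ly3]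
  have hsub : (S : Set ℕ) ⊆ {n : ℕ | (Nat.nth Nat.Prime (n + k) : ℝ) ≤ x ∧ ∀ i < k,
      L * Real.log x ≤ (Nat.nth Nat.Prime (n + i + 1) : ℝ) - Nat.nth Nat.Prime (n + i) - 1} := by
    intro s hs
    obtain ⟨b1, b2⟩ := hS2 s hs
    refine ⟨?_, fun i hi => ?_⟩
    · have c1 : (Nat.nth Nat.Prime (s + k) : ℝ) ≤ y + W := by exact_mod_cast b1
      linarith only [e1, y1, hWx, c1]
    · have c1 := b2 i hi
      have c2 : (Nat.nth Nat.Prime (s + i) : ℝ) + U + 1 ≤ Nat.nth Nat.Prime (s + i + 1) := by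
        exact_mod_cast c1
      have c3 : L * Real.log x ≤ 2 * L * Real.log y := by nlinarith only [ly3, hL1, e4]
      linarith only [a1, c2, c3]
  have hcard : (S.card : ℝ) ≤ ({n : ℕ | (Nat.nth Nat.Prime (n + k) : ℝ) ≤ x ∧ ∀ i < k,
      L * Real.log x ≤
        (Nat.nth Nat.Prime (n + i + 1) : ℝ) - Nat.nth Nat.Prime (n + i) - 1}.ncard : ℝ) := by
    have := Set.ncard_le_ncard hsub hfin
    rw [Set.ncard_coe_finset] at this
    exact_mod_cast this
  refine le_trans ?_ hcard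
  have hS1' : (y : ℝ) * Real.exp (-Real.exp (C * (k : ℝ) ^ 2 * (2 * L))) ≤
      Real.log x ^ 2 * S.card := by
    refine a3.trans ?_
    have h1 := (Nat.cast_le (α := ℝ)).2 hS1
    refine h1.trans ?_
    push_cast
    exact mul_le_mul_of_nonneg_right hWx (Nat.cast_nonneg _)
  have hlx2 : 0 < Real.log x ^ 2 := by positivity
  -- the final comparison
  have hG : 4 * Real.log x ^ 2 * Real.exp (-Real.exp ((4 * C + 4) * (k : ℝ) ^ 2 * L)) ≤
      Real.exp (-Real.exp (C * (k : ℝ) ^ 2 * (2 * L))) := by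
    have g1 : 4 * Real.log x ^ 2 ≤ Real.exp (3 * Real.log (Real.log x)) := by
      have g2 : Real.exp (3 * Real.log (Real.log x)) = Real.log x ^ 3 := by
        rw [mul_comm, Real.exp_mul, Real.exp_log (by linarith only [e2])]
        norm_num
      rw [g2]
      nlinarith only [e2]
    have g3 : 3 * Real.log (Real.log x) ≤ Real.exp (2 * L) := by
      have g4 : Real.log (Real.log x) ≤ Real.exp L := by
        rw [← Real.log_le_iff_le_exp (by linarith only [e3])]
        exact hL1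
      have g5 : Real.exp (2 * L) = Real.exp L * Real.exp L := by rw [← Real.exp_add]; ring_nf
      have g6 : 3 ≤ Real.exp L := by
        have := Real.add_one_le_exp L
        linarith only [hL1, e4, this]
      rw [g5]
      have := Real.exp_pos L
      nlinarith only [e3, g4]
    have g7 : Real.exp (2 * L) + Real.exp (C * (k : ℝ) ^ 2 * (2 * L)) ≤
        Real.exp ((4 * C + 4) * (k : ℝ) ^ 2 * L) := by
      have g8 : Real.exp (2 * L) ≤ Real.exp ((2 * C + 2) * (k : ℝ) ^ 2 * L) := by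
        apply Real.exp_le_exp.2
        have : 2 * 1 * L ≤ (2 * C + 2) * (k : ℝ) ^ 2 * L := by gcongr; linarith only [hC]
        linarith only [this]
      have g9 : Real.exp (C * (k : ℝ) ^ 2 * (2 * L)) ≤
          Real.exp ((2 * C + 2) * (k : ℝ) ^ 2 * L) := by
        apply Real.exp_le_exp.2
        have : 0 ≤ (k : ℝ) ^ 2 * L := by positivity
        nlinarith only [this]
      have g10 : Real.exp ((4 * C + 4) * (k : ℝ) ^ 2 * L) =
          Real.exp ((2 * C + 2) * (k : ℝ) ^ 2 * L) * Real.exp ((2 * C + 2) * (k : ℝ) ^ 2 * L) := by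
        rw [← Real.exp_add]
        ring_nf
      have g11 : 2 ≤ Real.exp ((2 * C + 2) * (k : ℝ) ^ 2 * L) := by
        have h1 := Real.add_one_le_exp ((2 * C + 2) * (k : ℝ) ^ 2 * L)
        have h2 : 2 * 1 * L ≤ (2 * C + 2) * (k : ℝ) ^ 2 * L := by gcongr; linarith only [hC]
        linarith only [e3, g3, g8]
      rw [g10]
      nlinarith only [e3, g3, g8, g9]
    calc 4 * Real.log x ^ 2 * Real.exp (-Real.exp ((4 * C + 4) * (k : ℝ) ^ 2 * L))
        ≤ Real.exp (3 * Real.log (Real.log x)) *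
          Real.exp (-Real.exp ((4 * C + 4) * (k : ℝ) ^ 2 * L)) :=
          mul_le_mul_of_nonneg_right g1 (Real.exp_pos _).le
      _ = Real.exp (3 * Real.log (Real.log x) - Real.exp ((4 * C + 4) * (k : ℝ) ^ 2 * L)) := by
          rw [← Real.exp_add, sub_eq_add_neg]
      _ ≤ _ := Real.exp_le_exp.2 (by linarith only [g3, g7])
  have hF : Real.log x ^ 2 * (x * Real.exp (-Real.exp ((4 * C + 4) * (k : ℝ) ^ 2 * L))) ≤
      Real.log x ^ 2 * S.card := by
    refine le_trans ?_ hS1'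
    calc Real.log x ^ 2 * (x * Real.exp (-Real.exp ((4 * C + 4) * (k : ℝ) ^ 2 * L)))
        = x / 4 * (4 * Real.log x ^ 2 * Real.exp (-Real.exp ((4 * C + 4) * (k : ℝ) ^ 2 * L))) := by
          ring
      _ ≤ x / 4 * Real.exp (-Real.exp (C * (k : ℝ) ^ 2 * (2 * L))) :=
          mul_le_mul_of_nonneg_left hG (by linarith only [hx16])
      _ ≤ y * Real.exp (-Real.exp (C * (k : ℝ) ^ 2 * (2 * L))) :=
          mul_le_mul_of_nonneg_right y3 (Real.exp_pos _).le
  exact le_of_mul_le_mul_left hF hlx2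

end Pool.Agent.Helper88.AC
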