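import Pool.Agent.Helper88.AC.Key
import Pool.Agent.Helper87.CG.F1
import Pool.Agent.Helper11.GM.MO

/-! # Abundant chains: sizes of the parameters -/

set_option autoImplicit false

open Finset Filter Topology

open scoped Classical

namespace Pool.Agent.Helper88.AC

open Pool.Agent.Helper88.GM (Sr)
open Pool.Agent.Helper88.CG Pool.Agent.Helper87.CG

theorem hlogN : Tendsto (fun x : ℕ => Real.log (x : ℝ)) atTop atTop :=
  Real.tendsto_log_atTop.comp tendsto_natCast_atTop_atTop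

theorem hllN : Tendsto (fun x : ℕ => Real.log (Real.log (x : ℝ))) atTop atTop :=
  Real.tendsto_log_atTop.comp hlogN

theorem hlllN : Tendsto (fun x : ℕ => Real.log (Real.log (Real.log (x : ℝ)))) atTop atTop :=
  Real.tendsto_log_atTop.comp hllN

/-- the choice of `E` and `z` -/
theorem choose2 {D : ℝ} (hD : 3 ≤ D) (E1 : ℕ) : ∃ x0 : ℕ, ∀ x : ℕ, x0 ≤ x → ∀ lam : ℝ,
    Real.log (Real.log (Real.log x)) ≤ lam → 8 * D * lam ≤ Real.log (Real.log x) →
    ∃ E z : ℕ, E1 ≤ E ∧ (0 : ℝ) < E ∧ D * lam ≤ Real.log E ∧ Real.log x ^ 2 ≤ z ∧ 2 ≤ z ∧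
    (E : ℝ) ≤ 2 * Real.exp (D * lam) ∧
    ∀ y : ℕ, Real.log x ≤ y → (y : ℝ) ≤ Real.log x ^ 2 → Sr E z x y := by
  have e1 : ∀ᶠ u : ℝ in atTop, u ≤ Real.exp (u / 8) := by
    have h1 : ∀ᶠ u : ℝ in atTop, u ^ 1 * Real.exp (-u) < 1 / 8 :=
      (Real.tendsto_pow_mul_exp_neg_atTop_nhds_zero 1).eventually (gt_mem_nhds (by positivity))
    have h2 : Tendsto (fun u : ℝ => u / 8) atTop atTop :=
      tendsto_id.atTop_div_const (by norm_num)
    filter_upwards [h2.eventually h1] with u hu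
    rw [pow_one, Real.exp_neg, ← div_eq_mul_inv, div_lt_iff₀ (Real.exp_pos _)] at hu
    linarith
  have e2 : ∀ᶠ u : ℝ in atTop, (E1 : ℝ) ≤ u ^ 3 :=
    (tendsto_pow_atTop (by norm_num : (3 : ℕ) ≠ 0)).eventually_ge_atTop _
  have e3 : ∀ᶠ u : ℝ in atTop, 3 ≤ Real.exp (u / 8) := by
    filter_upwards [eventually_ge_atTop (16 : ℝ)] with u hu
    have := Real.add_one_le_exp (u / 8)
    linarith
  obtain ⟨x0, hx0⟩ := eventually_atTop.1 ((hlogN.eventually_ge_atTop 900).and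
    ((hlllN.eventually_ge_atTop 1).and ((hllN.eventually e1).and ((hllN.eventually e2).and
      ((hllN.eventually e3).and (hllN.eventually_ge_atTop 2))))))
  refine ⟨x0, ?_⟩
  intro x hx lam hlam1 hlam2
  obtain ⟨hl, h3, hw, hE0, hw3, hll2⟩ := hx0 x hx
  set l := Real.log x with hldef
  obtain ⟨E, hE⟩ : ∃ E, E = ⌈Real.exp (D * lam)⌉₊ := ⟨_, rfl⟩
  obtain ⟨H, hH⟩ : ∃ H, H = ⌈lam * l⌉₊ := ⟨_, rfl⟩
  obtain ⟨T, hT⟩ : ∃ T, T = 2 * ⌈Real.exp ((E : ℝ) ^ 2)⌉₊ := ⟨_, rfl⟩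
  obtain ⟨s1, s2, s3, s4, s5, s6, s7, s8, s9⟩ :=
    Pool.Agent.Helper11.GM.sizes hD hl h3 hw3 hw hlam1 hlam2 hE hH hT
  have hEE0 : E1 ≤ E := by
    have : (E1 : ℝ) ≤ E := hE0.trans s3
    exact_mod_cast this
  have hxpos : (0 : ℝ) < x := by
    by_contra hcon
    have h3 : (x : ℝ) = 0 := le_antisymm (not_lt.1 hcon) (Nat.cast_nonneg _)
    rw [hldef, h3, Real.log_zero] at hl
    linarith
  have hHpos : 0 < H := by
    have : (0 : ℝ) < H := by linarith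
    exact_mod_cast this
  have hceil : 1 ≤ ⌈Real.exp ((E : ℝ) ^ 2)⌉₊ := Nat.one_le_ceil_iff.2 (Real.exp_pos _)
  have hTpos : 0 < T := by omega
  have hTHpos : 0 < T * H := Nat.mul_pos hTpos hHpos
  have hTHR : (0 : ℝ) < ((T * H : ℕ) : ℝ) := by exact_mod_cast hTHpos
  have hpow : (T * H) ^ E ≤ x := by
    have h1 : Real.log (((T * H : ℕ) : ℝ) ^ E) ≤ Real.log x := by
      rw [Real.log_pow]
      exact s8
    have h2 := (Real.log_le_log_iff (by positivity) hxpos).1 h1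
    exact_mod_cast h2
  obtain ⟨z, hzz0, hzx, hxz⟩ := Pool.Agent.Helper88.PP.root_exists E (T * H) x s2 hpow
  have hexpT : Real.exp ((E : ℝ) ^ 2) ≤ T := by
    have h1 := Nat.le_ceil (Real.exp ((E : ℝ) ^ 2))
    rw [hT]
    push_cast
    have := Real.exp_pos ((E : ℝ) ^ 2)
    linarith
  have hER : (1 : ℝ) ≤ E := by exact_mod_cast s2
  have hTz : Real.exp ((E : ℝ) ^ 2) ≤ z := by
    calc Real.exp ((E : ℝ) ^ 2) ≤ T := hexpT
      _ ≤ ((T * H : ℕ) : ℝ) := by exact_mod_cast Nat.le_mul_of_pos_right T hHpos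
      _ ≤ z := by exact_mod_cast hzz0
  have hexpz : Real.exp E ≤ z := by
    calc Real.exp E ≤ Real.exp ((E : ℝ) ^ 2) := Real.exp_le_exp.2 (by nlinarith)
      _ ≤ z := hTz
  have hll0 : 0 < Real.log l := by linarith
  have hl2z : l ^ 2 ≤ z := by
    have h1 : 2 * Real.log l ≤ (E : ℝ) ^ 2 := by
      have h2 : Real.log l ≤ Real.log l ^ 3 := by
        have : Real.log l * 1 ≤ Real.log l * Real.log l ^ 2 :=
          mul_le_mul_of_nonneg_left (one_le_pow₀ (by linarith)) hll0.le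
        calc Real.log l = Real.log l * 1 := (mul_one _).symm
          _ ≤ _ := this
          _ = Real.log l ^ 3 := by ring
      have h4 : Real.log l ≤ E := h2.trans s3
      have h5 : (2 : ℝ) ≤ E := by linarith
      nlinarith
    calc l ^ 2 = Real.exp (2 * Real.log l) := by
          rw [mul_comm, Real.exp_mul, Real.exp_log (by linarith)]
          norm_num
      _ ≤ Real.exp ((E : ℝ) ^ 2) := Real.exp_le_exp.2 h1
      _ ≤ z := hTz
  refine ⟨E, z, hEE0, by linarith, s4, hl2z, ?_, ?_, fun y hy1 hy2 =>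
    ⟨hexpz, hzx, hxz, hy1, hy2, s3⟩⟩
  · have h1 : (2 : ℝ) ≤ z := by
      refine le_trans ?_ hl2z
      nlinarith
    exact_mod_cast h1
  · rw [hE]
    have h1 := Nat.ceil_lt_add_one (Real.exp_pos (D * lam)).le
    have h2 : 1 ≤ Real.exp (D * lam) := by
      apply Real.one_le_exp
      have : 0 ≤ lam := by linarith
      positivity
    linarith

/-- sizes of the blocks -/
theorem sizes2 {δ : ℝ} (hδ : 0 < δ) {M : ℕ} (hM : 1 ≤ M) :
    ∀ᶠ x : ℕ in atTop, ∀ lam : ℝ, Real.log (Real.log (Real.log x)) ≤ lam →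
      lam ≤ Real.log (Real.log x) → ∃ U l : ℕ, lam * Real.log x ≤ U ∧
      (U : ℝ) ≤ 2 * lam * Real.log x ∧
      δ * Real.log x ≤ l ∧ (l : ℝ) ≤ 2 * δ * Real.log x ∧ l ≤ U ∧
      Real.log x ≤ ((M * (U + l) : ℕ) : ℝ) ∧ ((M * (U + l) : ℕ) : ℝ) ≤ Real.log x ^ 2 ∧
      Real.log (Real.log x) ≤ l ∧ Real.log x / 20 ≤ (x / 32 : ℕ) ∧ 64 ≤ x ∧
      0 < Real.log (Real.log x) ∧ 0 < Real.log x := by
  have hM0 : (1 : ℝ) ≤ M := by exact_mod_cast hM
  have e1 : ∀ᶠ x : ℕ in atTop, Real.log (Real.log x) ≤ 1 / (4 * M) * Real.log x :=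
    hlogN.eventually (log_le_eps (by positivity))
  have e2 : ∀ᶠ x : ℕ in atTop, Real.log (Real.log x) ≤ δ * Real.log x :=
    hlogN.eventually (log_le_eps hδ)
  have e3 : ∀ᶠ x : ℕ in atTop, 2 * δ + 1 ≤ Real.log (Real.log (Real.log x)) :=
    hlllN.eventually_ge_atTop _
  have e4 : ∀ᶠ x : ℕ in atTop, 1 / δ + 1 ≤ Real.log x := hlogN.eventually_ge_atTop _
  have e5 : ∀ᶠ x : ℕ in atTop, Real.log (x : ℝ) ≤ 1 / 2 * x :=
    tendsto_natCast_atTop_atTop.eventually (log_le_eps (by norm_num))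
  have e6 : ∀ᶠ x : ℕ in atTop, 1 ≤ Real.log (Real.log x) := hllN.eventually_ge_atTop _
  filter_upwards [e1, e2, e3, e4, e5, e6, eventually_ge_atTop 160] with x a1 a2 a3 a4 a5 a7 a6
    lam b1 b2
  set L := Real.log (x : ℝ) with hL
  set LL := Real.log L with hLL
  have hL0 : 1 ≤ L := by
    have : 0 < 1 / δ := by positivity
    linarith
  have hLL0 : 0 < LL := by linarith
  have hlam : 2 * δ + 1 ≤ lam := a3.trans b1
  have hlam1 : 1 ≤ lam := by linarith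
  have hb : 1 ≤ lam * L := by nlinarith
  have hd : 1 ≤ δ * L := by
    have h1 : 1 / δ ≤ L := by linarith
    rw [div_le_iff₀ hδ] at h1
    linarith
  have hU1 : lam * L ≤ (⌈lam * L⌉₊ : ℝ) := Nat.le_ceil _
  have hU2 : (⌈lam * L⌉₊ : ℝ) ≤ 2 * lam * L := by
    have := Nat.ceil_lt_add_one (by positivity : 0 ≤ lam * L)
    linarith
  have hl1 : δ * L ≤ (⌈δ * L⌉₊ : ℝ) := Nat.le_ceil _
  have hl2 : (⌈δ * L⌉₊ : ℝ) ≤ 2 * δ * L := by
    have := Nat.ceil_lt_add_one (by positivity : 0 ≤ δ * L)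
    linarith
  have h2δ : 2 * δ * L ≤ lam * L := by
    have : 2 * δ * L ≤ lam * L := mul_le_mul_of_nonneg_right (by linarith) (by linarith)
    linarith
  have hlU : (⌈δ * L⌉₊ : ℝ) ≤ (⌈lam * L⌉₊ : ℝ) := by linarith
  refine ⟨⌈lam * L⌉₊, ⌈δ * L⌉₊, hU1, hU2, hl1, hl2, by exact_mod_cast hlU, ?_, ?_, ?_, ?_,
    by omega, hLL0, by linarith⟩
  · push_cast
    have h1 : L ≤ lam * L := by nlinarith
    have h2 : (0 : ℝ) ≤ (⌈δ * L⌉₊ : ℝ) := Nat.cast_nonneg _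
    nlinarith
  · push_cast
    have h1 : (M : ℝ) * ((⌈lam * L⌉₊ : ℝ) + (⌈δ * L⌉₊ : ℝ)) ≤
        M * (2 * (2 * lam * L)) := mul_le_mul_of_nonneg_left (by linarith) (by linarith)
    have h2 : (M : ℝ) * (2 * (2 * lam * L)) = (4 * M * lam) * L := by ring
    have h3 : 4 * M * lam ≤ L := by
      have h4 : 4 * M * lam ≤ 4 * M * (1 / (4 * M) * L) :=
        mul_le_mul_of_nonneg_left (b2.trans a1) (by positivity)
      have h5 : 4 * M * (1 / (4 * M) * L) = L := by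
        field_simp
      linarith
    have h6 : (4 * M * lam) * L ≤ L * L := mul_le_mul_of_nonneg_right h3 (by linarith)
    rw [sq]
    linarith
  · linarith
  · have h1 : (x : ℝ) / 32 - 1 ≤ ((x / 32 : ℕ) : ℝ) := by
      have h2 : x < 32 * (x / 32 + 1) := by omega
      have h3 : (x : ℝ) < 32 * (((x / 32 : ℕ) : ℝ) + 1) := by exact_mod_cast h2
      linarith
    have h2 : (160 : ℝ) ≤ x := by exact_mod_cast a6
    linarith

/-- the number of killed points -/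
theorem small_p2 {Λ C4 C'' cK D k L lam E lE y M U p om' fq : ℝ} (hΛ : 0 < Λ) (hC4 : 0 < C4)
    (hC'' : 0 < C'') (_hcK : 0 < cK) (hk : 0 < k) (hL : 0 < L) (hlam : 0 < lam) (hE : 0 < E)
    (hD : 4 * Λ * C'' * C4 * k ^ 2 ≤ cK * D) (hlE : D * lam ≤ lE)
    (_hy0 : 0 ≤ y)
    (hy : y ≤ 2 * M * U) (hM : M ≤ C'' * k ^ 2) (hU : U ≤ 2 * lam * L)
    (_hM0 : 0 ≤ M) (hU0 : 0 ≤ U)
    (ho : 0 ≤ om') (hA4 : om' * fq ≤ C4 * (E / L)) (hp : p ≤ Λ * (y * fq)) :
    p * om' ≤ cK * (E * lE) := by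
  have h1 : p * om' ≤ Λ * (y * fq) * om' := mul_le_mul_of_nonneg_right hp ho
  have h2 : Λ * (y * fq) * om' = Λ * y * (om' * fq) := by ring
  have h3 : Λ * y * (om' * fq) ≤ Λ * y * (C4 * (E / L)) :=
    mul_le_mul_of_nonneg_left hA4 (by positivity)
  have h4 : y ≤ 2 * (C'' * k ^ 2) * (2 * lam * L) := by
    refine hy.trans ?_
    have : M * U ≤ (C'' * k ^ 2) * (2 * lam * L) :=
      mul_le_mul hM hU hU0 (by positivity)
    linarith
  have h6 : Λ * y * (C4 * (E / L)) ≤ Λ * (2 * (C'' * k ^ 2) * (2 * lam * L)) * (C4 * (E / L)) := by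
    gcongr
  have h7 : Λ * (2 * (C'' * k ^ 2) * (2 * lam * L)) * (C4 * (E / L)) =
      (4 * Λ * C'' * C4 * k ^ 2) * (E * lam) := by
    field_simp
    ring
  have h8 : (4 * Λ * C'' * C4 * k ^ 2) * (E * lam) ≤ (cK * D) * (E * lam) :=
    mul_le_mul_of_nonneg_right hD (by positivity)
  have h9 : (cK * D) * (E * lam) = cK * (E * (D * lam)) := by ring
  have h10 : cK * (E * (D * lam)) ≤ cK * (E * lE) := by gcongr
  linarith

end Pool.Agent.Helper88.AC
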