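import Pool.Agent.Helper87.CG.F1c

/-! # Abundant chains: many classes -/

set_option autoImplicit false

open Finset Filter Topology

open scoped Classical

namespace Pool.Agent.Helper88.AC

open Pool.Agent.Helper88.CG Pool.Agent.Helper87.CG

/-- the averaging argument, many classes -/
theorem avg2 {Q : ℕ} (hQ : 1 ≤ Q) {r s t p : ℕ → ℝ} {cA CB CP C5 K R M pb η δ : ℝ}
    (hcA : 0 < cA) (hCB : 0 < CB) (hCP : 0 < CP) (hC5 : 0 < C5) (hK : 1 ≤ K) (hR : 0 < R)
    (hpb : 0 < pb) (hη0 : 0 ≤ η) (hη1 : η ≤ 1 / 6)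
    (s0 : ∀ b < Q, 0 ≤ s b) (t0 : ∀ b < Q, 0 ≤ t b)
    (p0 : ∀ b < Q, 0 ≤ p b)
    (h1 : Q * (cA * R) ≤ ∑ b ∈ range Q, r b) (h2 : ∀ b < Q, r b ≤ CB * s b)
    (h3 : ∑ b ∈ range Q, s b ^ 2 ≤ Q * (2 * C5 * R ^ 2))
    (h4 : ∑ b ∈ range Q, t b ≤ Q * (C5 * R * δ)) (h5 : ∑ b ∈ range Q, p b ≤ Q * pb)
    (hδ : 4 * K * CP * C5 * δ ≤ cA) (hRK : 16 * K ≤ cA * R)
    (hM : 0 ≤ M) (hη : η * (K + M + (1 + 2 * C5 * R ^ 2) / 2) ≤ K) :
    (Q : ℝ) ≤ 2 * C5 * CB ^ 2 * R ^ 2 *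
      ((range Q).filter (fun b => p b ≤ 32 * CB ^ 2 * C5 / cA ^ 2 * pb ∧
      1 ≤ (1 - η) * r b - η * s b - K * (CP / 2) * t b - K * (1 + η) - M * η)).card := by
  have hQ0 : (0 : ℝ) < Q := by exact_mod_cast hQ
  set Λ : ℝ := 32 * CB ^ 2 * C5 / cA ^ 2 with hΛ
  have hΛ0 : 0 < Λ := by positivity
  set τ : ℝ := cA / (8 * CB * C5) with hτ
  have hτ0 : 0 < τ := by positivity
  set G : Finset ℕ := (range Q).filter (fun b => p b ≤ Λ * pb ∧
      1 ≤ (1 - η) * r b - η * s b - K * (CP / 2) * t b - K * (1 + η) - M * η) with hG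
  -- the value of `r` at a bad `b`
  have hbad : ∀ b < Q, (if p b ≤ Λ * pb then (0 : ℝ) else r b) ≤
      CB * (R / (2 * τ * (Λ * pb)) * p b + τ / (2 * R) * s b ^ 2) := by
    intro b hb
    have hp := p0 b hb
    have hs := s0 b hb
    split_ifs with h
    · positivity
    · push Not at h
      refine (h2 b hb).trans (mul_le_mul_of_nonneg_left ?_ hCB.le)
      have e1 : R / (2 * τ) ≤ R / (2 * τ * (Λ * pb)) * p b := by
        rw [div_mul_eq_mul_div, div_le_div_iff₀ (by positivity) (by positivity)]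
        have : 0 < R * (2 * τ) := by positivity
        nlinarith
      have e2 : s b ≤ R / (2 * τ) + τ / (2 * R) * s b ^ 2 := by
        have e3 : R / (2 * τ) + τ / (2 * R) * s b ^ 2 - s b =
            (τ * s b - R) ^ 2 / (2 * τ * R) := by
          field_simp
          ring
        have e4 : 0 ≤ (τ * s b - R) ^ 2 / (2 * τ * R) := by positivity
        linarith
      linarith
  obtain ⟨κ, hκ⟩ : ∃ κ : ℝ, κ = K * (1 + η) + M * η + 1 := ⟨_, rfl⟩
  have hpt : ∀ b ∈ range Q, (1 - η) * (r b - (if p b ≤ Λ * pb then (0 : ℝ) else r b)) ≤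
      η * s b + K * (CP / 2) * t b + κ + (if b ∈ G then CB * s b else 0) := by
    intro b hb
    rw [hκ]
    have hb' := mem_range.1 hb
    have hs := s0 b hb'
    have ht := t0 b hb'
    split_ifs with h hbG hbG
    · have h6 := h2 b hb'
      have h7 : (1 - η) * (r b - 0) ≤ CB * s b := by
        rcases le_or_gt 0 (r b) with hr | hr
        · nlinarith
        · have : 0 ≤ CB * s b := by positivity
          nlinarith
      have h8 : 0 ≤ η * s b + K * (CP / 2) * t b + (K * (1 + η) + M * η) := by positivity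
      linarith
    · have h6 : ¬ (1 ≤ (1 - η) * r b - η * s b - K * (CP / 2) * t b - K * (1 + η) - M * η) := by
        intro h7
        exact hbG (mem_filter.2 ⟨hb, h, h7⟩)
      push Not at h6
      linarith
    · rw [sub_self, mul_zero]
      positivity
    · rw [sub_self, mul_zero]
      positivity
  have hsum := sum_le_sum hpt
  rw [← mul_sum, sum_sub_distrib, sum_add_distrib, sum_add_distrib, sum_add_distrib,
    ← mul_sum, ← mul_sum,
    sum_const, card_range, nsmul_eq_mul, ← sum_filter] at hsum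
  have hGs : (range Q).filter (fun b => b ∈ G) = G := by
    rw [filter_mem_eq_inter, inter_eq_right]
    exact filter_subset _ _
  rw [hGs] at hsum
  have hb1 : ∑ b ∈ range Q, (if p b ≤ Λ * pb then (0 : ℝ) else r b) ≤ Q * (cA * R / 4) := by
    calc ∑ b ∈ range Q, (if p b ≤ Λ * pb then (0 : ℝ) else r b)
        ≤ ∑ b ∈ range Q, CB * (R / (2 * τ * (Λ * pb)) * p b + τ / (2 * R) * s b ^ 2) :=
          sum_le_sum fun b hb => hbad b (mem_range.1 hb)
      _ = CB * (R / (2 * τ * (Λ * pb)) * ∑ b ∈ range Q, p b +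
            τ / (2 * R) * ∑ b ∈ range Q, s b ^ 2) := by
          rw [← mul_sum, sum_add_distrib, ← mul_sum, ← mul_sum]
      _ ≤ CB * (R / (2 * τ * (Λ * pb)) * (Q * pb) + τ / (2 * R) * (Q * (2 * C5 * R ^ 2))) := by
          gcongr
      _ = Q * (cA * R / 4) := by
          rw [hτ, hΛ]
          field_simp
          ring
  have hs1 : ∑ b ∈ range Q, s b ≤ Q * ((1 + 2 * C5 * R ^ 2) / 2) := by
    have : ∑ b ∈ range Q, s b ≤ ∑ b ∈ range Q, (1 / 2 + s b ^ 2 / 2) :=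
      sum_le_sum fun b _ => by nlinarith [sq_nonneg (s b - 1)]
    rw [sum_add_distrib, sum_const, card_range, nsmul_eq_mul, ← sum_div] at this
    nlinarith
  have g1 : (1 - η) * (∑ b ∈ range Q, r b -
      ∑ b ∈ range Q, (if p b ≤ Λ * pb then (0 : ℝ) else r b)) ≥
      5 / 6 * (Q * (3 / 4 * (cA * R))) := by
    have e1 : Q * (3 / 4 * (cA * R)) ≤ ∑ b ∈ range Q, r b -
      ∑ b ∈ range Q, (if p b ≤ Λ * pb then (0 : ℝ) else r b) := by linarith
    have e2 : 0 ≤ Q * (3 / 4 * (cA * R)) := by positivity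
    nlinarith
  have g2 : η * ∑ b ∈ range Q, s b ≤ η * (Q * ((1 + 2 * C5 * R ^ 2) / 2)) :=
    mul_le_mul_of_nonneg_left hs1 hη0
  have g3 : K * (CP / 2) * ∑ b ∈ range Q, t b ≤ Q * (cA * R / 8) := by
    have e1 : K * (CP / 2) * ∑ b ∈ range Q, t b ≤ K * (CP / 2) * (Q * (C5 * R * δ)) :=
      mul_le_mul_of_nonneg_left h4 (by positivity)
    have e2 : K * (CP / 2) * (Q * (C5 * R * δ)) = Q * (R / 8) * (4 * K * CP * C5 * δ) := by ring
    have e3 : Q * (R / 8) * (4 * K * CP * C5 * δ) ≤ Q * (R / 8) * cA :=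
      mul_le_mul_of_nonneg_left hδ (by positivity)
    linarith
  have g4 : Q * (5 / 8 * (cA * R)) ≤ Q * (cA * R / 8 + 2 * K) + Q + ∑ b ∈ G, CB * s b := by
    have e1 : η * (Q * ((1 + 2 * C5 * R ^ 2) / 2)) + Q * (K * (1 + η) + M * η) =
        Q * (K + η * (K + M + (1 + 2 * C5 * R ^ 2) / 2)) := by ring
    have e2 : Q * (K + η * (K + M + (1 + 2 * C5 * R ^ 2) / 2)) ≤ Q * (K + K) :=
      mul_le_mul_of_nonneg_left (by linarith) hQ0.le
    have e3 : Q * κ = Q * (K * (1 + η) + M * η) + Q := by rw [hκ]; ring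
    linarith
  have g5 : (Q : ℝ) ≤ ∑ b ∈ G, CB * s b := by
    have e1 : Q * (5 / 8 * (cA * R)) - Q * (cA * R / 8 + 2 * K) - Q =
        Q * (cA * R / 2 - 2 * K - 1) := by ring
    have e2 : (1 : ℝ) ≤ cA * R / 2 - 2 * K - 1 := by linarith
    have e3 : (Q : ℝ) * 1 ≤ Q * (cA * R / 2 - 2 * K - 1) :=
      mul_le_mul_of_nonneg_left e2 hQ0.le
    linarith
  rw [← mul_sum] at g5
  have g6 : (∑ b ∈ G, s b) ^ 2 ≤ G.card * (Q * (2 * C5 * R ^ 2)) := by
    refine (sq_sum_le_card_mul_sum_sq (s := G) (f := s)).trans ?_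
    refine mul_le_mul_of_nonneg_left ?_ (Nat.cast_nonneg _)
    refine le_trans (sum_le_sum_of_subset_of_nonneg (filter_subset _ _) ?_) h3
    intro b _ _
    positivity
  have g7 : (Q : ℝ) ^ 2 ≤ CB ^ 2 * (G.card * (Q * (2 * C5 * R ^ 2))) := by
    calc (Q : ℝ) ^ 2 ≤ (CB * ∑ b ∈ G, s b) ^ 2 := pow_le_pow_left₀ hQ0.le g5 2
      _ = CB ^ 2 * (∑ b ∈ G, s b) ^ 2 := by ring
      _ ≤ _ := mul_le_mul_of_nonneg_left g6 (by positivity)
  have g8 : (Q : ℝ) * Q ≤ Q * (2 * C5 * CB ^ 2 * R ^ 2 * G.card) := by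
    calc (Q : ℝ) * Q = (Q : ℝ) ^ 2 := by ring
      _ ≤ _ := g7
      _ = _ := by ring
  exact le_of_mul_le_mul_left g8 hQ0

end Pool.Agent.Helper88.AC
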