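import Pool.Agent.Helper88.AC.Fin
import Pool.Agent.Helper88.CG.MainA
import Pool.Agent.Helper72.CG.PB
import Pool.Agent.Helper5.GM.SU
import Pool.Agent.Helper31.RR.CB

/-! # Abundant chains: the assembly -/

set_option autoImplicit false

namespace Pool.Agent.Helper88.AC

open Pool.Agent.Helper88.CG

theorem mPB' : StmtPB := Pool.Agent.Helper72.CG.pb mTG mVP

theorem mAF : StmtAF :=
  af mLB mPB' mBT mKQ Pool.Agent.Helper61.CG.a1 Pool.Agent.Helper5.CG.a3
    Pool.Agent.Helper90.CG.a4 mS1 (Pool.Agent.Helper5.GM.su Pool.Agent.Helper31.RR.cb)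

theorem mAC : StmtAC := ac mAF

end Pool.Agent.Helper88.AC
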